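import Pool.Agent.Q20.OSQ.Grp

/-! Numbers of elements of order dividing `3` and `9` (helper20, for MP_c3eb23_al). -/

namespace Q20.OSQ

theorem pow3 (g : Aff) : g ^ 3 = g * g * g := by
  rw [pow_succ, pow_two]
theorem pow9 (g : Aff) : g ^ 9 = (g * g * g) * (g * g * g) * (g * g * g) := by
  rw [← pow3, ← pow3, ← pow_mul]

set_option maxRecDepth 100000 in
set_option maxHeartbeats 0 in
theorem cnt3 : (Finset.univ.filter (fun g : Aff => χ g = 1 ∧ g * g * g = 1)).card = 1485 := by
  decide +kernel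

set_option maxRecDepth 100000 in
set_option maxHeartbeats 0 in
theorem cnt9 : (Finset.univ.filter (fun g : Aff => χ g = 1 ∧
    (g * g * g) * (g * g * g) * (g * g * g) = 1)).card = 1701 := by
  decide +kernel

set_option maxRecDepth 100000 in
set_option maxHeartbeats 0 in
theorem cntK : (Finset.univ.filter (fun g : Aff => χ g = 1)).card = 6561 := by
  decide +kernel

/-- first coefficient of `1 + q + q ^ 2`, `q = ω ^ i * 4 ^ t` -/
def S1 (i : ZMod 3) (t : ZMod 9) : ZMod 27 := 1 + c t * α i + c (t + t) * α (i + i)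
/-- second coefficient of `1 + q + q ^ 2`, `q = ω ^ i * 4 ^ t` -/
def S2 (i : ZMod 3) (t : ZMod 9) : ZMod 27 := c t * β i + c (t + t) * β (i + i)

theorem three_i : ∀ i : ZMod 3, i + i + i = 0 := by decide
theorem nine_t : ∀ t : ZMod 9, (t + t + t) + (t + t + t) + (t + t + t) = 0 := by decide

theorem cube (g : Aff) : g * g * g =
    ⟨S1 g.i g.t * g.x - S2 g.i g.t * g.y, S1 g.i g.t * g.y + S2 g.i g.t * g.x - S2 g.i g.t * g.y,
      0, g.t + g.t + g.t⟩ := by
  ext
  · simp only [mul_def, S1, S2, c_add, α_add, β_add]; ring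
  · simp only [mul_def, S1, S2, c_add, α_add, β_add]; ring
  · simp only [mul_def]; exact three_i _
  · simp only [mul_def]

theorem T2 : ∀ t : ZMod 9, S2 0 t = 0 := by decide +kernel
theorem T1 : ∀ (i : ZMod 3) (t : ZMod 9), S1 0 0 * (S1 0 (t + t + t) * S1 i t) = 0 := by
  decide +kernel
theorem T3 : ∀ (i : ZMod 3) (t : ZMod 9), S1 0 0 * (S1 0 (t + t + t) * S2 i t) = 0 := by
  decide +kernel

theorem pow27 (g : Aff) : g ^ 27 = 1 := by
  have h : g ^ 27 = ((g ^ 3) ^ 3) ^ 3 := by rw [← pow_mul, ← pow_mul]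
  rw [h, pow3, pow3, pow3, cube g, cube, cube]
  simp only [T2, nine_t]
  rw [one_def]
  have h1 := T1 g.i g.t
  have h2 := T3 g.i g.t
  ext
  · simp only
    linear_combination g.x * h1 - g.y * h2
  · simp only
    linear_combination g.y * h1 + g.x * h2 - g.y * h2
  · rfl
  · rfl

/-- An element with `g ^ 27 = 1` has order `27`, `9`, `3` or `1`. -/
theorem orderOf_formula {G : Type*} [Group G] [DecidableEq G] (g : G) (h : g ^ 27 = 1) :
    orderOf g + 18 * (if g ^ 9 = 1 then 1 else 0) + 6 * (if g ^ 3 = 1 then 1 else 0)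
      + 2 * (if g = 1 then 1 else 0) = 27 := by
  have h1 : orderOf g ∣ 3 ^ 3 := orderOf_dvd_of_pow_eq_one h
  obtain ⟨k, hk, hk'⟩ := (Nat.dvd_prime_pow Nat.prime_three).1 h1
  have e9 : g ^ 9 = 1 ↔ orderOf g ∣ 9 := orderOf_dvd_iff_pow_eq_one.symm
  have e3 : g ^ 3 = 1 ↔ orderOf g ∣ 3 := orderOf_dvd_iff_pow_eq_one.symm
  have e1 : g = 1 ↔ orderOf g = 1 := orderOf_eq_one_iff.symm
  simp only [e9, e3, e1, hk']
  interval_cases k <;> simp

/-- Sum of the orders. -/
theorem sum_orderOf {G : Type*} [Group G] [Fintype G] [DecidableEq G] (h : ∀ g : G, g ^ 27 = 1) :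
    (∑ g : G, orderOf g) + 18 * (Finset.univ.filter fun g : G => g ^ 9 = 1).card
      + 6 * (Finset.univ.filter fun g : G => g ^ 3 = 1).card + 2 = 27 * Fintype.card G := by
  have h1 : ∑ g : G, (orderOf g + 18 * (if g ^ 9 = 1 then 1 else 0)
      + 6 * (if g ^ 3 = 1 then 1 else 0) + 2 * (if g = 1 then 1 else 0)) = ∑ _g : G, 27 :=
    Finset.sum_congr rfl fun g _ => orderOf_formula g (h g)
  rw [Finset.sum_add_distrib, Finset.sum_add_distrib, Finset.sum_add_distrib,
    ← Finset.mul_sum, ← Finset.mul_sum, ← Finset.mul_sum, Finset.sum_boole, Finset.sum_boole,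
    Finset.sum_boole, Finset.sum_const, Finset.card_univ] at h1
  have h2 : (Finset.univ.filter fun g : G => g = 1).card = 1 := by
    rw [Finset.filter_eq' Finset.univ (1 : G)]; simp
  rw [h2] at h1
  simp only [Nat.cast_id, smul_eq_mul] at h1
  omega

end Q20.OSQ
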