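import Mathlib

/-!
A group of affine maps over `ℤ[ω]/27` (helper20, for MP_c3eb23_al).

The elements are the maps `z ↦ ω ^ i * 4 ^ t * z + (x + y * ω)` of the ring `ℤ[ω]/27`,
`ω ^ 2 + ω + 1 = 0`, `i` modulo `3`, `t` modulo `9`.
-/

namespace Q20.OSQ

/-- The affine map `z ↦ ω ^ i * 4 ^ t * z + (x + y * ω)` of `ℤ[ω]/27`. -/
@[ext]
structure Aff where
  /-- first coordinate of the translation part -/
  x : ZMod 27
  /-- second coordinate of the translation part -/
  y : ZMod 27
  /-- exponent of `ω` -/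
  i : ZMod 3
  /-- exponent of `4` -/
  t : ZMod 9
deriving DecidableEq

/-- `4 ^ t` -/
def c (t : ZMod 9) : ZMod 27 := 4 ^ t.val
/-- `ω ^ i = α i + β i * ω` -/
def α (i : ZMod 3) : ZMod 27 := if i = 0 then 1 else if i = 1 then 0 else -1
/-- `ω ^ i = α i + β i * ω` -/
def β (i : ZMod 3) : ZMod 27 := if i = 0 then 0 else if i = 1 then 1 else -1

theorem c_add : ∀ s t : ZMod 9, c (s + t) = c s * c t := by decide +kernel
theorem α_add : ∀ i j : ZMod 3, α (i + j) = α i * α j - β i * β j := by decide +kernel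
theorem β_add : ∀ i j : ZMod 3, β (i + j) = α i * β j + β i * α j - β i * β j := by
  decide +kernel

instance : Mul Aff := ⟨fun g h =>
  ⟨g.x + c g.t * (α g.i * h.x - β g.i * h.y),
   g.y + c g.t * (α g.i * h.y + β g.i * h.x - β g.i * h.y), g.i + h.i, g.t + h.t⟩⟩
instance : One Aff := ⟨⟨0, 0, 0, 0⟩⟩
instance : Inv Aff := ⟨fun g =>
  ⟨-(c (-g.t) * (α (-g.i) * g.x - β (-g.i) * g.y)),
   -(c (-g.t) * (α (-g.i) * g.y + β (-g.i) * g.x - β (-g.i) * g.y)), -g.i, -g.t⟩⟩

theorem mul_def (g h : Aff) : g * h =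
  ⟨g.x + c g.t * (α g.i * h.x - β g.i * h.y),
   g.y + c g.t * (α g.i * h.y + β g.i * h.x - β g.i * h.y), g.i + h.i, g.t + h.t⟩ := rfl
theorem one_def : (1 : Aff) = ⟨0, 0, 0, 0⟩ := rfl
theorem inv_def (g : Aff) : g⁻¹ =
  ⟨-(c (-g.t) * (α (-g.i) * g.x - β (-g.i) * g.y)),
   -(c (-g.t) * (α (-g.i) * g.y + β (-g.i) * g.x - β (-g.i) * g.y)), -g.i, -g.t⟩ := rfl

theorem c_zero : c 0 = 1 := by decide +kernel
theorem α_zero : α 0 = 1 := by decide +kernel
theorem β_zero : β 0 = 0 := by decide +kernel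

instance : Group Aff := Group.ofLeftAxioms
  (by
    intro g h k
    ext
    · simp only [mul_def, c_add, α_add, β_add]; ring
    · simp only [mul_def, c_add, α_add, β_add]; ring
    · simp only [mul_def]; ring
    · simp only [mul_def]; ring)
  (by
    intro g
    ext <;> simp [mul_def, one_def, c_zero, α_zero, β_zero])
  (by
    intro g
    ext <;> simp [mul_def, one_def, inv_def])

/-- The group as a product of sets. -/
def toProd : Aff ≃ ZMod 27 × ZMod 27 × ZMod 3 × ZMod 9 where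
  toFun g := (g.x, g.y, g.i, g.t)
  invFun p := ⟨p.1, p.2.1, p.2.2.1, p.2.2.2⟩
  left_inv _ := rfl
  right_inv _ := rfl

instance : Fintype Aff := Fintype.ofEquiv _ toProd.symm

theorem card_Aff : Fintype.card Aff = 19683 := by
  rw [Fintype.card_congr toProd]; simp [ZMod.card]

/-- the character `x + y - t` modulo `3` -/
def χ : Aff →* Multiplicative (ZMod 3) where
  toFun g := Multiplicative.ofAdd (ZMod.castHom (show 3 ∣ 27 by norm_num) (ZMod 3) (g.x + g.y)
    - ZMod.castHom (show 3 ∣ 9 by norm_num) (ZMod 3) g.t)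
  map_one' := by decide +kernel
  map_mul' := by
    intro g h
    rw [← ofAdd_add]
    congr 1
    have h1 : ∀ t : ZMod 9, ZMod.castHom (show 3 ∣ 27 by norm_num) (ZMod 3) (c t) = 1 := by
      decide +kernel
    have h2 : ∀ i : ZMod 3, ZMod.castHom (show 3 ∣ 27 by norm_num) (ZMod 3) (α i)
      = 1 - ZMod.castHom (show 3 ∣ 27 by norm_num) (ZMod 3) (β i) := by
      decide +kernel
    have h3 : (3 : ZMod 3) = 0 := by decide
    simp only [mul_def, map_add, map_mul, map_sub, h1, h2]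
    linear_combination (-(ZMod.castHom (show 3 ∣ 27 by norm_num) (ZMod 3) (β g.i))
      * (ZMod.castHom (show 3 ∣ 27 by norm_num) (ZMod 3) h.y)) * h3

end Q20.OSQ
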